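import Pool.Agent.W262.RK.Bas
import Pool.Agent.W307.IM.Stm

/-!
# Project IM, part ZLOW: the mean value of `cz`, deduced from `ELOW`
-/

set_option autoImplicit false

namespace Pool.Agent.W430.IM.ZLOW

open Finset Filter Pool.Agent.W262.RK Pool.Agent.W307.IM

lemma Jr_one (l : ℕ) : Jr l 1 = 1 := by
  simp [Jr, jacobiSym.one_right]

lemma cz_nonneg {z : ℝ} (hz : 0 < z) (w l : ℕ) : 0 ≤ cz z w l := by
  unfold cz
  split_ifs
  · positivity
  · exact le_rfl

/-- Chebyshev's lower bound -/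
lemma cheb : ∃ N0 : ℕ, 2 ≤ N0 ∧ ∀ N : ℕ, N0 ≤ N →
    (N : ℝ) / 2 ≤ (Nat.primeCounting N : ℝ) * Real.log N := by
  have h1 : ∀ᶠ x : ℝ in atTop, ‖Real.log x‖ ≤ (1 / 40) * ‖x ^ (1 / 2 : ℝ)‖ :=
    (isLittleO_log_rpow_atTop (by norm_num : (0 : ℝ) < 1 / 2)).def (by norm_num)
  have h2 : ∀ᶠ N : ℕ in atTop, ‖Real.log (N : ℝ)‖ ≤ (1 / 40) * ‖(N : ℝ) ^ (1 / 2 : ℝ)‖ :=
    tendsto_natCast_atTop_atTop.eventually h1
  obtain ⟨N0, hN0⟩ := eventually_atTop.1 h2
  refine ⟨N0 + 100, by omega, fun N hN => ?_⟩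
  have h3 := hN0 N (by omega)
  have hN1 : (100 : ℝ) ≤ N := by exact_mod_cast (by omega : 100 ≤ N)
  have hl0 : 0 ≤ Real.log N := Real.log_nonneg (by linarith)
  rw [← Real.sqrt_eq_rpow, Real.norm_of_nonneg hl0, Real.norm_of_nonneg (Real.sqrt_nonneg _)] at h3
  have hs : Real.sqrt N * Real.sqrt N = N := Real.mul_self_sqrt (by linarith)
  have hs0 : 0 ≤ Real.sqrt (N : ℝ) := Real.sqrt_nonneg _
  have hs10 : (10 : ℝ) ≤ Real.sqrt N := by
    apply Real.le_sqrt_of_sq_le
    linarith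
  have h4 := Chebyshev.theta_ge N
  have h5 := Chebyshev.theta_le_pi_mul_log N
  have h6 : Real.log ((N : ℝ) + 1) ≤ 1 + Real.log N := by
    have h7 : Real.log ((N : ℝ) + 1) ≤ Real.log (2 * N) :=
      Real.log_le_log (by linarith) (by linarith)
    rw [Real.log_mul (by norm_num) (by linarith)] at h7
    have := Real.log_two_lt_d9
    linarith
  have h8 := Real.log_two_gt_d9
  have h9 : 2 * Real.sqrt N * Real.log N ≤ (1 / 20) * N := by nlinarith
  have h10 : (N : ℝ) * Real.log 2 ≥ 0.69 * N := by nlinarith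
  have h11 : Real.sqrt N ≤ N / 10 := by nlinarith
  refine le_trans ?_ (h4.trans h5)
  nlinarith

/-- the number of primes in `(R, N]` -/
lemma prime_count (N R : ℕ) :
    (Nat.primeCounting N : ℝ) ≤ (((Ioc R N).filter Nat.Prime).card : ℝ) + R := by
  have h1 : Nat.primeCounting N = ((range (N + 1)).filter Nat.Prime).card := by
    rw [Nat.primeCounting, Nat.primeCounting', Nat.count_eq_card_filter_range]
  have h2 : (range (N + 1)).filter Nat.Prime ⊆ ((Ioc R N).filter Nat.Prime) ∪ Ioc 0 R := by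
    intro p hp
    rw [mem_filter, mem_range] at hp
    rw [mem_union, mem_filter, mem_Ioc, mem_Ioc]
    have := hp.2.pos
    rcases Nat.lt_or_ge R p with h | h
    · left
      exact ⟨⟨h, by omega⟩, hp.2⟩
    · right
      exact ⟨this, h⟩
  have h3 := (card_le_card h2).trans (card_union_le _ _)
  rw [Nat.card_Ioc, ← h1] at h3
  exact_mod_cast h3

/-- the elements of `ME` -/
lemma me_mem {A K0 T m : ℕ} (hT : 1 ≤ T) (hm : m ∈ ME A K0 T) :
    1 ≤ m ∧ (∀ p : ℕ, p.Prime → p ∣ m → wT A T < p) ∧ (m : ℝ) ≤ (T : ℝ) ^ (1 / 4 : ℝ) := by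
  classical
  unfold ME at hm
  rw [mem_filter, Nat.mem_divisors] at hm
  obtain ⟨⟨hd, hne⟩, hc⟩ := hm
  have hm0 : m ≠ 0 := fun h => hne (Nat.eq_zero_of_zero_dvd (h ▸ hd))
  have hdm : m ∈ (PP (wT A T) (yT K0 T)).divisors := Nat.mem_divisors.2 ⟨hd, hne⟩
  have hsq : Squarefree m := dv_squarefree hdm
  have hp : ∀ p : ℕ, p.Prime → p ∣ m → wT A T < p ∧ p ≤ yT K0 T :=
    fun p h1 h2 => dv_prime hdm h1 h2
  refine ⟨Nat.one_le_iff_ne_zero.2 hm0, fun p h1 h2 => (hp p h1 h2).1, ?_⟩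
  have hT0 : (0 : ℝ) ≤ T := Nat.cast_nonneg T
  have hT1 : (1 : ℝ) ≤ T := by exact_mod_cast hT
  have hk : 1 ≤ kT K0 T := by unfold kT; omega
  have hk0 : (0 : ℝ) < kT K0 T := by exact_mod_cast hk
  have hy1 : 1 ≤ yT K0 T := by
    unfold yT
    rw [Nat.one_le_floor_iff]
    exact Real.one_le_rpow hT1 (by positivity)
  have hy2 : (yT K0 T : ℝ) ≤ (T : ℝ) ^ (1 / (4 * (kT K0 T : ℝ))) := by
    unfold yT
    exact Nat.floor_le (by positivity)
  have h1 : m ≤ yT K0 T ^ kT K0 T := by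
    calc m = ∏ p ∈ m.primeFactors, p := (Nat.prod_primeFactors_of_squarefree hsq).symm
      _ ≤ ∏ p ∈ m.primeFactors, yT K0 T := prod_le_prod' (fun p hpm => by
          rw [Nat.mem_primeFactors] at hpm
          exact (hp p hpm.1 hpm.2.1).2)
      _ = yT K0 T ^ m.primeFactors.card := by rw [prod_const]
      _ ≤ yT K0 T ^ kT K0 T := Nat.pow_le_pow_right hy1 hc
  calc (m : ℝ) ≤ (yT K0 T : ℝ) ^ kT K0 T := by exact_mod_cast h1
    _ ≤ ((T : ℝ) ^ (1 / (4 * (kT K0 T : ℝ)))) ^ kT K0 T :=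
        pow_le_pow_left₀ (Nat.cast_nonneg _) hy2 _
    _ = (T : ℝ) ^ (1 / 4 : ℝ) := by
        rw [← Real.rpow_natCast, ← Real.rpow_mul hT0]
        congr 1
        field_simp

/-- the number of the `q` -/
lemma q_count : ∃ t0 : ℝ, ∀ (T m : ℕ) (t : ℝ), t0 ≤ t → t ^ 4 = (T : ℝ) →
    8 * Real.log T ≤ t → 1 ≤ Real.log T → 1 ≤ m → (m : ℝ) ≤ t →
    (T : ℝ) / (8 * m * Real.log T) ≤
      (((Ioc (Nat.sqrt T) (T / m)).filter Nat.Prime).card : ℝ) := by
  obtain ⟨N0, hN0, hch⟩ := cheb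
  refine ⟨2 * N0 + 2, fun T m t ht ht4 hL8 hL1 hm1 hmt => ?_⟩
  have hN0r : (2 : ℝ) ≤ N0 := by exact_mod_cast hN0
  have hm1r : (1 : ℝ) ≤ m := by exact_mod_cast hm1
  have hm0 : (0 : ℝ) < m := by linarith
  have ht6 : (6 : ℝ) ≤ t := by linarith
  have ht0 : 0 < t := by linarith
  set L := Real.log T with hL
  have hL0 : 0 < L := by linarith
  have hT0 : (0 : ℝ) < T := by rw [← ht4]; positivity
  have hNlt : (T : ℝ) / m < ((T / m : ℕ) : ℝ) + 1 := by
    rw [← Nat.floor_div_eq_div (K := ℝ)]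
    exact Nat.lt_floor_add_one _
  have hq : t ^ 3 ≤ (T : ℝ) / m := by
    rw [le_div_iff₀ hm0, ← ht4]
    have : t ^ 3 * m ≤ t ^ 3 * t := mul_le_mul_of_nonneg_left hmt (by positivity)
    calc t ^ 3 * m ≤ t ^ 3 * t := this
      _ = t ^ 4 := by ring
  have ht3 : t ≤ t ^ 3 := by nlinarith [sq_nonneg (t - 1), mul_pos ht0 ht0]
  have hN1 : N0 ≤ T / m := by
    have : (N0 : ℝ) < ((T / m : ℕ) : ℝ) := by linarith
    exact_mod_cast this.le
  have hN2 : (T : ℝ) / m / 2 ≤ ((T / m : ℕ) : ℝ) := by linarith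
  have h1 := hch (T / m) hN1
  have hNpos : (0 : ℝ) < ((T / m : ℕ) : ℝ) := by
    have : (T : ℝ) / m > 0 := by positivity
    linarith
  have hlog : Real.log ((T / m : ℕ) : ℝ) ≤ L :=
    Real.log_le_log hNpos (by exact_mod_cast Nat.div_le_self T m)
  have h2 : ((T / m : ℕ) : ℝ) / 2 ≤ (Nat.primeCounting (T / m) : ℝ) * L :=
    h1.trans (mul_le_mul_of_nonneg_left hlog (Nat.cast_nonneg _))
  have h3 := prime_count (T / m) (Nat.sqrt T)
  have h4 : (Nat.sqrt T : ℝ) ≤ t ^ 2 := by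
    have h5 : (Nat.sqrt T : ℝ) * Nat.sqrt T ≤ T := by exact_mod_cast Nat.sqrt_le T
    have h6 : (Nat.sqrt T : ℝ) ^ 2 ≤ (t ^ 2) ^ 2 := by
      calc (Nat.sqrt T : ℝ) ^ 2 = (Nat.sqrt T : ℝ) * Nat.sqrt T := by ring
        _ ≤ T := h5
        _ = (t ^ 2) ^ 2 := by rw [← ht4]; ring
    exact le_of_sq_le_sq h6 (by positivity)
  have h7 : t ^ 2 * (8 * m * L) ≤ T := by
    rw [← ht4]
    have h8 : m * (8 * L) ≤ t * t := mul_le_mul hmt hL8 (by positivity) ht0.le
    calc t ^ 2 * (8 * m * L) = t ^ 2 * (m * (8 * L)) := by ring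
      _ ≤ t ^ 2 * (t * t) := mul_le_mul_of_nonneg_left h8 (by positivity)
      _ = t ^ 4 := by ring
  have h9 : (T : ℝ) / m / 4 ≤ (Nat.primeCounting (T / m) : ℝ) * L := by linarith
  rw [div_le_iff₀ (by positivity)]
  have h10 : (T : ℝ) ≤ (Nat.primeCounting (T / m) : ℝ) * L * 4 * m := by
    have h11 : (T : ℝ) = (T : ℝ) / m / 4 * (4 * m) := by field_simp
    calc (T : ℝ) = (T : ℝ) / m / 4 * (4 * m) := h11
      _ ≤ ((Nat.primeCounting (T / m) : ℝ) * L) * (4 * m) :=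
        mul_le_mul_of_nonneg_right h9 (by positivity)
      _ = _ := by ring
  have h12 : (Nat.primeCounting (T / m) : ℝ) * (8 * m * L) ≤
      ((((Ioc (Nat.sqrt T) (T / m)).filter Nat.Prime).card : ℝ) + t ^ 2) * (8 * m * L) :=
    mul_le_mul_of_nonneg_right (by linarith) (by positivity)
  nlinarith

/-- the lower bound for `GG` -/
lemma gg_lower {z : ℝ} (hz0 : 0 < z) (hz1 : z < 1) {A K0 T : ℕ} (hT : 1 ≤ T)
    (hL : 0 < Real.log T) (hw : wT A T ≤ Nat.sqrt T) (hm2 : ∀ m ∈ ME A K0 T, m ≤ Nat.sqrt T)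
    (hq : ∀ m ∈ ME A K0 T, (T : ℝ) / (8 * m * Real.log T) ≤
      (((Ioc (Nat.sqrt T) (T / m)).filter Nat.Prime).card : ℝ)) :
    z * T / (8 * Real.log T) * ∑ m ∈ ME A K0 T, z ^ m.primeFactors.card / (m : ℝ) ≤
      GG z (wT A T) T 1 := by
  classical
  set Q : ℕ → Finset ℕ := fun m => (Ioc (Nat.sqrt T) (T / m)).filter Nat.Prime with hQ
  have hQm : ∀ m q : ℕ, q ∈ Q m → (Nat.sqrt T < q ∧ q ≤ T / m) ∧ q.Prime := by
    intro m q h
    rw [hQ, mem_filter, mem_Ioc] at h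
    exact h
  have h1 : GG z (wT A T) T 1 = ∑ l ∈ range (T + 1), cz z (wT A T) l := by
    unfold GG
    exact sum_congr rfl fun l _ => by rw [Jr_one, mul_one]
  rw [h1, mul_sum]
  calc ∑ m ∈ ME A K0 T, z * T / (8 * Real.log T) * (z ^ m.primeFactors.card / (m : ℝ))
      ≤ ∑ m ∈ ME A K0 T, ∑ q ∈ Q m, cz z (wT A T) (m * q) := by
        refine sum_le_sum fun m hm => ?_
        obtain ⟨hm1, hmp, -⟩ := me_mem hT hm
        have hm0 : (0 : ℝ) < m := by exact_mod_cast hm1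
        have h2 : z * T / (8 * Real.log T) * (z ^ m.primeFactors.card / (m : ℝ)) =
            z ^ (m.primeFactors.card + 1) * ((T : ℝ) / (8 * m * Real.log T)) := by
          rw [pow_succ]
          field_simp
        rw [h2]
        calc z ^ (m.primeFactors.card + 1) * ((T : ℝ) / (8 * m * Real.log T))
            ≤ z ^ (m.primeFactors.card + 1) * ((Q m).card : ℝ) :=
              mul_le_mul_of_nonneg_left (hq m hm) (by positivity)
          _ = ∑ q ∈ Q m, z ^ (m.primeFactors.card + 1) := by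
              rw [sum_const, nsmul_eq_mul, mul_comm]
          _ ≤ ∑ q ∈ Q m, cz z (wT A T) (m * q) := by
              refine sum_le_sum fun q hqm => ?_
              obtain ⟨⟨hq1, hq2⟩, hqp⟩ := hQm m q hqm
              have h3 : 1 ≤ m * q ∧ ∀ p : ℕ, p.Prime → p ∣ m * q → wT A T < p := by
                refine ⟨Nat.one_le_iff_ne_zero.2 (Nat.mul_ne_zero (by omega) hqp.ne_zero),
                  fun p hp hpd => ?_⟩
                rcases (Nat.Prime.dvd_mul hp).1 hpd with h | h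
                · exact hmp p hp h
                · rw [(Nat.prime_dvd_prime_iff_eq hp hqp).1 h]
                  omega
              unfold cz
              rw [if_pos h3]
              apply pow_le_pow_of_le_one hz0.le hz1.le
              rw [Nat.primeFactors_mul (by omega) hqp.ne_zero, hqp.primeFactors]
              exact (card_union_le _ _).trans (by rw [card_singleton])
    _ = ∑ x ∈ (ME A K0 T).sigma Q, cz z (wT A T) (x.1 * x.2) := by rw [sum_sigma]
    _ = ∑ l ∈ ((ME A K0 T).sigma Q).image (fun x : (_ : ℕ) × ℕ => x.1 * x.2),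
          cz z (wT A T) l := by
        rw [sum_image]
        rintro ⟨m, q⟩ hx ⟨m', q'⟩ hx' heq
        rw [mem_coe, mem_sigma] at hx hx'
        dsimp only at hx hx' heq
        obtain ⟨hm, hqq⟩ := hx
        obtain ⟨hm', hqq'⟩ := hx'
        obtain ⟨⟨hq1, hq2⟩, hqp⟩ := hQm m q hqq
        obtain ⟨⟨hq1', hq2'⟩, hqp'⟩ := hQm m' q' hqq'
        have hm'2 := hm2 m' hm'
        have hm'1 := (me_mem hT hm').1
        have h4 : q ∣ m' * q' := by rw [← heq]; exact Dvd.intro_left m rfl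
        have h5 : q = q' := by
          rcases (Nat.Prime.dvd_mul hqp).1 h4 with h | h
          · exact absurd (Nat.le_of_dvd (by omega) h) (by omega)
          · exact (Nat.prime_dvd_prime_iff_eq hqp hqp').1 h
        subst h5
        have h6 : m = m' := Nat.eq_of_mul_eq_mul_right hqp.pos heq
        subst h6
        rfl
    _ ≤ ∑ l ∈ range (T + 1), cz z (wT A T) l := by
        refine sum_le_sum_of_subset_of_nonneg ?_ (fun l _ _ => cz_nonneg hz0 _ _)
        intro l hl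
        rw [mem_image] at hl
        obtain ⟨⟨m, q⟩, hx, rfl⟩ := hl
        rw [mem_sigma] at hx
        dsimp only at hx
        obtain ⟨⟨hq1, hq2⟩, hqp⟩ := hQm m q hx.2
        have hm1 := (me_mem hT hx.1).1
        rw [mem_range]
        have h7 : m * q ≤ m * (T / m) := Nat.mul_le_mul_left m hq2
        have h8 : m * (T / m) ≤ T := Nat.mul_div_le T m
        dsimp only
        omega

/-- `ZLOW` from `ELOW` -/
theorem zlow_of (h : ELOW) : ZLOW := by
  intro z A hz0 hz1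
  obtain ⟨K1, hK⟩ := h z hz0
  obtain ⟨C, T0, hC⟩ := hK K1 A le_rfl
  obtain ⟨t0, hq⟩ := q_count
  have hlog : Tendsto (fun T : ℕ => Real.log (T : ℝ)) atTop atTop :=
    Real.tendsto_log_atTop.comp tendsto_natCast_atTop_atTop
  have hll : Tendsto (fun T : ℕ => Real.log (Real.log (T : ℝ))) atTop atTop :=
    Real.tendsto_log_atTop.comp hlog
  have hpow : Tendsto (fun T : ℕ => (T : ℝ) ^ (1 / 4 : ℝ)) atTop atTop :=
    (tendsto_rpow_atTop (by norm_num)).comp tendsto_natCast_atTop_atTop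
  have e1 : ∀ᶠ T : ℕ in atTop, ‖Real.log (T : ℝ)‖ ≤ (1 / 8) * ‖(T : ℝ) ^ (1 / 4 : ℝ)‖ :=
    tendsto_natCast_atTop_atTop.eventually
      ((isLittleO_log_rpow_atTop (by norm_num : (0 : ℝ) < 1 / 4)).def (by norm_num))
  have e2 : ∀ᶠ T : ℕ in atTop, ‖Real.log (T : ℝ) ^ (A : ℝ)‖ ≤
      (1 / 2) * ‖(T : ℝ) ^ (1 / 4 : ℝ)‖ :=
    tendsto_natCast_atTop_atTop.eventually
      ((isLittleO_log_rpow_rpow_atTop (A : ℝ) (by norm_num : (0 : ℝ) < 1 / 4)).def
        (by norm_num))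
  have e3 : ∀ᶠ T : ℕ in atTop,
      T * (Real.log T) ^ (z - 1) / (Real.log (Real.log T)) ^ (C + 1) ≤
        GG z (wT A T) T 1 := by
    filter_upwards [e1, e2, hlog.eventually_ge_atTop 1, hll.eventually_ge_atTop (8 / z),
      hpow.eventually_ge_atTop (max t0 10), eventually_ge_atTop (T0 + 1)] with
      T h1 h2 h3 h4 h5 h6
    have hT1 : 1 ≤ T := by omega
    have hT0 : (0 : ℝ) ≤ T := Nat.cast_nonneg T
    have hTp : (0 : ℝ) < T := by exact_mod_cast hT1
    set t : ℝ := (T : ℝ) ^ (1 / 4 : ℝ) with ht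
    have ht0 : 0 < t := by positivity
    have ht10 : 10 ≤ t := (le_max_right _ _).trans h5
    have ht4 : t ^ 4 = (T : ℝ) := by
      rw [ht, ← Real.rpow_natCast, ← Real.rpow_mul hT0]
      norm_num
    have hL0 : 0 < Real.log T := by linarith
    rw [Real.norm_of_nonneg hL0.le, Real.norm_of_nonneg ht0.le] at h1
    rw [Real.norm_of_nonneg (by positivity), Real.norm_of_nonneg ht0.le, Real.rpow_natCast] at h2
    have hsq : ∀ n : ℕ, (n : ℝ) ≤ t → n ≤ Nat.sqrt T := by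
      intro n hn
      rw [Nat.le_sqrt]
      have h7 : (n : ℝ) * n ≤ T := by
        rw [← ht4]
        have h8 : (n : ℝ) * n ≤ t * t := mul_le_mul hn hn (Nat.cast_nonneg _) ht0.le
        have h81 : (1 : ℝ) ≤ t * t := by nlinarith
        calc (n : ℝ) * n ≤ t * t := h8
          _ = (t * t) * 1 := (mul_one _).symm
          _ ≤ (t * t) * (t * t) := mul_le_mul_of_nonneg_left h81 (by positivity)
          _ = t ^ 4 := by ring
      exact_mod_cast h7
    have hw : wT A T ≤ Nat.sqrt T := by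
      apply hsq
      unfold wT
      push_cast
      have h7 : ((⌊Real.log T ^ A⌋₊ : ℕ) : ℝ) ≤ Real.log T ^ A :=
        Nat.floor_le (by positivity)
      linarith
    have hg := gg_lower hz0 hz1 (A := A) (K0 := K1) hT1 hL0 hw
      (fun m hm => hsq m (me_mem hT1 hm).2.2)
      (fun m hm => hq T m t ((le_max_left _ _).trans h5) ht4 (by linarith) h3
        (me_mem hT1 hm).1 (me_mem hT1 hm).2.2)
    have hE := hC T (by omega)
    refine le_trans ?_ hg
    refine le_trans ?_ (mul_le_mul_of_nonneg_left hE (by positivity))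
    have hLL0 : 0 < Real.log (Real.log T) := lt_of_lt_of_le (by positivity) h4
    rw [Real.rpow_sub_one hL0.ne', Real.rpow_add_one hLL0.ne']
    set L := Real.log (T : ℝ) with hLdef
    set LL := Real.log L with hLLdef
    set X : ℝ := T * (L ^ z / L) / LL ^ C with hX
    have hX0 : 0 ≤ X := by positivity
    have h8 : T * (L ^ z / L) / (LL ^ C * LL) = X / LL := by
      rw [hX, div_div]
    have h9 : z * T / (8 * L) * (L ^ z / LL ^ C) = X * (z / 8) := by
      rw [hX]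
      have : LL ^ C ≠ 0 := (Real.rpow_pos_of_pos hLL0 C).ne'
      field_simp
    rw [h8, h9, div_le_iff₀ hLL0]
    have h10 : 1 ≤ z / 8 * LL := by
      have h11 : z / 8 * (8 / z) = 1 := by field_simp
      calc (1 : ℝ) = z / 8 * (8 / z) := h11.symm
        _ ≤ z / 8 * LL := mul_le_mul_of_nonneg_left h4 (by positivity)
    calc X = X * 1 := (mul_one X).symm
      _ ≤ X * (z / 8 * LL) := mul_le_mul_of_nonneg_left h10 hX0
      _ = X * (z / 8) * LL := by ring
  obtain ⟨T1, hT1⟩ := eventually_atTop.1 e3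
  exact ⟨C + 1, T1, hT1⟩

end Pool.Agent.W430.IM.ZLOW

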