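import Pool.Agent.W672.FK.Lowf
import Pool.Agent.W307.IM.Stm

/-!
# Project IM, part FAMI: from the pairs to the family, from two landed facts
-/

set_option autoImplicit false

namespace Pool.Agent.W430.IM.FAMI

open Finset Filter Pool.Agent.W262.RK Pool.Agent.W307.RT Pool.Agent.W307.IM
open Pool.Agent.W672.FK

lemma cA_cg (t : ℕ × ℕ) : cA t.1 t.2 = (cg t).1 := by
  unfold cA cg
  ring

lemma cB_cg (t : ℕ × ℕ) : cB t.1 t.2 = (cg t).2 := by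
  unfold cB cg
  ring

lemma cg_swap (t : ℕ × ℕ) : cg (t.2, t.1) = cg t := by
  unfold cg
  ext
  · dsimp only; ring
  · dsimp only; ring

/-- the sum over the pairs -/
lemma sum_pairs {T H : ℕ} (hH : 2000000 * T ^ 6 ≤ H) (g : ℤ × ℤ → ℝ) (hg : ∀ c, 0 ≤ g c) :
    (1 / 2 : ℝ) * ∑ t ∈ Pr T, g (cA t.1 t.2, cB t.1 t.2) ≤ ∑ c ∈ Cv 2 H, g c := by
  classical
  set P1 := (Pr T).filter (fun t => t.2 < t.1) with hP1
  set P2 := (Pr T).filter (fun t => ¬ t.2 < t.1) with hP2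
  have hPr : ∀ t : ℕ × ℕ, t ∈ Pr T ↔ (((1 ≤ t.1 ∧ t.1 ≤ T) ∧ (1 ≤ t.2 ∧ t.2 ≤ T)) ∧
      (t.1 ≠ t.2 ∧ t.1.Coprime t.2)) := by
    intro t
    unfold Pr
    rw [mem_filter, mem_product, mem_Icc, mem_Icc]
  have h0 : ∑ t ∈ Pr T, g (cA t.1 t.2, cB t.1 t.2) = ∑ t ∈ Pr T, g (cg t) :=
    sum_congr rfl fun t _ => by rw [cA_cg, cB_cg]
  have h1 : ∑ t ∈ Pr T, g (cg t) = ∑ t ∈ P1, g (cg t) + ∑ t ∈ P2, g (cg t) :=
    (sum_filter_add_sum_filter_not (Pr T) (fun t => t.2 < t.1) _).symm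
  have h2 : ∑ t ∈ P2, g (cg t) = ∑ t ∈ P1, g (cg t) := by
    apply sum_bij (fun (t : ℕ × ℕ) _ => (t.2, t.1))
    · intro t ht
      rw [hP2, mem_filter, hPr] at ht
      rw [hP1, mem_filter, hPr]
      obtain ⟨⟨⟨⟨a1, a2⟩, a3, a4⟩, a5, a6⟩, a7⟩ := ht
      dsimp only
      exact ⟨⟨⟨⟨a3, a4⟩, a1, a2⟩, Ne.symm a5, a6.symm⟩, by omega⟩
    · intro t _ t' _ h
      simp only [Prod.mk.injEq] at h
      ext
      · exact h.2
      · exact h.1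
    · intro t ht
      rw [hP1, mem_filter, hPr] at ht
      refine ⟨(t.2, t.1), ?_, rfl⟩
      rw [hP2, mem_filter, hPr]
      obtain ⟨⟨⟨⟨a1, a2⟩, a3, a4⟩, a5, a6⟩, a7⟩ := ht
      dsimp only
      exact ⟨⟨⟨⟨a3, a4⟩, a1, a2⟩, Ne.symm a5, a6.symm⟩, by omega⟩
    · intro t _
      rw [cg_swap]
  have h3 : ∑ t ∈ P1, g (cg t) ≤ ∑ c ∈ Cv 2 H, g c := by
    have hinj : Set.InjOn cg (P1 : Set (ℕ × ℕ)) := by
      intro t ht t' ht' h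
      rw [mem_coe, hP1, mem_filter, hPr] at ht ht'
      obtain ⟨⟨⟨⟨a1, a2⟩, a3, a4⟩, a5, a6⟩, a7⟩ := ht
      obtain ⟨⟨⟨⟨b1, b2⟩, b3, b4⟩, b5, b6⟩, b7⟩ := ht'
      simp only [cg, Prod.mk.injEq] at h
      obtain ⟨e1, e2⟩ := cg_inj (by exact_mod_cast a3) (by exact_mod_cast a7)
        (by exact_mod_cast b3) (by exact_mod_cast b7) h.1 h.2
      ext
      · exact_mod_cast e1
      · exact_mod_cast e2
    rw [← sum_image (f := g) hinj]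
    apply sum_le_sum_of_subset_of_nonneg
    · intro c hc
      rw [mem_image] at hc
      obtain ⟨t, ht, rfl⟩ := hc
      rw [hP1, mem_filter, hPr] at ht
      obtain ⟨⟨⟨⟨a1, a2⟩, a3, a4⟩, a5, a6⟩, a7⟩ := ht
      exact mem_cv2 (a := t.1) (b := t.2) a3 a7 a2 a6 hH
    · intro c _ _
      exact hg c
  rw [h0, h1, h2]
  linarith

/-- the roots are bounded -/
lemma root_bound {A B e1 e2 e3 : ℤ} {T H : ℕ}
    (h : ∀ x : ℤ, x ^ 3 + A * x + B = (x - e1) * (x - e2) * (x - e3))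
    (hA : 4 * |A| ^ 3 ≤ H) (hH : H ≤ 2000000 * (T + 1) ^ 6) :
    e1 + e2 + e3 = 0 ∧ |e1| ≤ 13 * ((T : ℤ) + 1) ∧ |e2| ≤ 13 * ((T : ℤ) + 1) := by
  have h0 := h 0
  have h1 := h 1
  have h2 := h (-1)
  have hs : e1 + e2 + e3 = 0 := by linarith
  have hp : A = e1 * e2 + e1 * e3 + e2 * e3 := by linarith
  have he3 : e3 = -(e1 + e2) := by linarith
  have hA2 : A = -(e1 ^ 2 + e1 * e2 + e2 ^ 2) := by rw [hp, he3]; ring
  have hHI : (H : ℤ) ≤ 2000000 * ((T : ℤ) + 1) ^ 6 := by exact_mod_cast hH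
  have key : ∀ e : ℤ, e ^ 2 ≤ 2 * |A| → |e| ≤ 13 * ((T : ℤ) + 1) := by
    intro e he
    have k1 : (e ^ 2) ^ 3 ≤ (2 * |A|) ^ 3 := pow_le_pow_left₀ (sq_nonneg e) he 3
    have k2 : |e| ^ 6 = (e ^ 2) ^ 3 := by rw [← sq_abs e]; ring
    have k3 : |e| ^ 6 ≤ (13 * ((T : ℤ) + 1)) ^ 6 := by
      rw [k2]
      calc (e ^ 2) ^ 3 ≤ (2 * |A|) ^ 3 := k1
        _ = 2 * (4 * |A| ^ 3) := by ring
        _ ≤ 2 * (2000000 * ((T : ℤ) + 1) ^ 6) := by linarith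
        _ ≤ (13 * ((T : ℤ) + 1)) ^ 6 := by
            have : (0 : ℤ) ≤ ((T : ℤ) + 1) ^ 6 := by positivity
            nlinarith
    exact le_of_pow_le_pow_left₀ (by norm_num) (by positivity) k3
  have habs : |A| = e1 ^ 2 + e1 * e2 + e2 ^ 2 := by
    rw [hA2, abs_neg, abs_of_nonneg]
    nlinarith [sq_nonneg (e1 + e2), sq_nonneg e1, sq_nonneg e2]
  refine ⟨hs, key e1 ?_, key e2 ?_⟩
  · rw [habs]; nlinarith [sq_nonneg (e1 + e2), sq_nonneg e2, sq_nonneg (e1 + 2 * e2)]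
  · rw [habs]; nlinarith [sq_nonneg (e1 + e2), sq_nonneg e1, sq_nonneg (2 * e1 + e2)]

/-- the number of the curves -/
lemma card_le (hr : ∀ c : ℤ × ℤ, 4 * c.1 ^ 3 + 27 * c.2 ^ 2 ≠ 0 → HasT 2 (Sh c.1 c.2) →
    ∃ e1 e2 e3 : ℤ, ∀ x : ℤ, x ^ 3 + c.1 * x + c.2 = (x - e1) * (x - e2) * (x - e3))
    {T H : ℕ} (hT : 1 ≤ T) (hH : H ≤ 2000000 * (T + 1) ^ 6) :
    ((Cv 2 H).card : ℝ) ≤ 2809 * (T : ℝ) ^ 2 := by
  classical
  have hr' : ∀ c : ℤ × ℤ, ∃ e : ℤ × ℤ, c ∈ Cv 2 H →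
      (e ∈ Icc (-(13 * ((T : ℤ) + 1))) (13 * ((T : ℤ) + 1)) ×ˢ
        Icc (-(13 * ((T : ℤ) + 1))) (13 * ((T : ℤ) + 1))) ∧
      c.1 = -(e.1 ^ 2 + e.1 * e.2 + e.2 ^ 2) ∧ c.2 = e.1 * e.2 * (e.1 + e.2) := by
    intro c
    by_cases hc : c ∈ Cv 2 H
    · have hc' := hc
      unfold Cv at hc'
      rw [mem_filter] at hc'
      obtain ⟨-, h1, h2, -, -, h5⟩ := hc'
      obtain ⟨e1, e2, e3, h⟩ := hr c h1 h5
      obtain ⟨hs, b1, b2⟩ := root_bound h h2 hH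
      refine ⟨(e1, e2), fun _ => ⟨?_, ?_, ?_⟩⟩
      · rw [mem_product, mem_Icc, mem_Icc]
        exact ⟨abs_le.1 b1, abs_le.1 b2⟩
      · have h0 := h 0
        have h1 := h 1
        have h2 := h (-1)
        have he3 : e3 = -(e1 + e2) := by linarith
        have hp : c.1 = e1 * e2 + e1 * e3 + e2 * e3 := by linarith
        rw [hp, he3]; ring
      · have h0 := h 0
        have he3 : e3 = -(e1 + e2) := by linarith
        dsimp only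
        rw [he3] at h0
        linarith
    · exact ⟨(0, 0), fun h => absurd h hc⟩
  choose F hF using hr'
  have hcard : (Cv 2 H).card ≤ (Icc (-(13 * ((T : ℤ) + 1))) (13 * ((T : ℤ) + 1)) ×ˢ
        Icc (-(13 * ((T : ℤ) + 1))) (13 * ((T : ℤ) + 1))).card := by
    apply card_le_card_of_injOn F
    · intro c hc
      exact (hF c hc).1
    · intro c hc c' hc' h
      obtain ⟨-, a1, a2⟩ := hF c hc
      obtain ⟨-, b1, b2⟩ := hF c' hc'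
      ext
      · rw [a1, b1, h]
      · rw [a2, b2, h]
  rw [card_product, Int.card_Icc] at hcard
  have h3 : (13 * ((T : ℤ) + 1) + 1 - -(13 * ((T : ℤ) + 1))).toNat = 26 * (T + 1) + 1 := by
    omega
  rw [h3] at hcard
  have h4 : (26 * (T + 1) + 1) ≤ 53 * T := by omega
  have h5 : (Cv 2 H).card ≤ (53 * T) * (53 * T) := hcard.trans (Nat.mul_le_mul h4 h4)
  have h6 : ((Cv 2 H).card : ℝ) ≤ (53 * T) * (53 * T) := by exact_mod_cast h5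
  linarith

/-- `FAMI` from the finiteness of the 2-Selmer groups and the existence of the roots -/
theorem fami_of (hfin : ∀ H : ℕ, ∀ c ∈ Cv 2 H, (Sel2 c.1 c.2).Finite)
    (hr : ∀ c : ℤ × ℤ, 4 * c.1 ^ 3 + 27 * c.2 ^ 2 ≠ 0 → HasT 2 (Sh c.1 c.2) →
      ∃ e1 e2 e3 : ℤ, ∀ x : ℤ, x ^ 3 + c.1 * x + c.2 = (x - e1) * (x - e2) * (x - e3)) :
    FAMI := by
  refine ⟨hfin, 2000000, 2809, 1 / 2, by norm_num, by norm_num, fun T hT H h1 h2 => ?_⟩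
  exact ⟨card_le hr hT h2, fun g hg => sum_pairs h1 g hg⟩

end Pool.Agent.W430.IM.FAMI
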